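import Pool.Agent.LGD.Stmts

set_option autoImplicit false

/-! Squad LGD (MP_5f6ee5_nt), row CT1: a cut has a number `t`. -/

namespace Pool.Agent.LGD.H70

open Finset Pool.Agent.LGD

theorem ct1 : Ct1Stmt := by
  intro M u hu hcut
  obtain ⟨q, hq⟩ : ∃ q : ℕ, q = M ^ 2 / u := ⟨_, rfl⟩
  have h1 : q * u ≤ M ^ 2 := by rw [hq]; exact Nat.div_mul_le_self _ _
  have h2 : M ^ 2 < (q + 1) * u := by
    have h3 := Nat.div_add_mod (M ^ 2) u
    have h4 := Nat.mod_lt (M ^ 2) hu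
    rw [← hq] at h3
    nlinarith
  have h3 := hcut (q + 1) (by rw [mul_comm]; exact h2)
  have h4 : ((M : ℤ) + 1) ^ 2 ≤ ((u : ℤ) + 1) * (q + 1) := by exact_mod_cast h3
  have h5 : (q : ℤ) * u ≤ (M : ℤ) ^ 2 := by exact_mod_cast h1
  refine ⟨(u : ℤ) + q - 2 * M, ?_, ?_⟩
  · nlinarith
  · nlinarith

end Pool.Agent.LGD.H70
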